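import Pool.Agent.Helper96.VF.GoalsL

/-!
# Project VF: packet ASM (from `CNT`, `LGS`, `DBL`, `GCHI`)
-/

set_option autoImplicit false

namespace Pool.Agent.Helper16.VF

open Pool.Agent.Helper96.VF

theorem pos_div {n m : ℕ} (hm : m ∈ Cop n) : 1 ≤ n / m := by
  unfold Cop at hm
  rw [Finset.mem_filter, Finset.mem_Icc] at hm
  exact (Nat.one_le_div_iff (by omega)).2 hm.1.2

theorem par1 : Par 2 4 2 3 := by unfold Par; omega

theorem par2 : Par 16 20 10 12 := by unfold Par; omega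

open Classical in
/-- the sum of `g` over the classes. -/
theorem sum_g (h : GCHI) (n : ℕ) :
    (∑ m ∈ Cop n, (g (n / m) : ℝ)) =
      (∑ m ∈ Cop n, ((Nat.log 3 (n / m) : ℝ) + 1)) + (∑ m ∈ Cop n, ((Nat.log 4 (n / m) : ℝ) + 1)) -
        ((Cop n).card : ℝ) + (((Cop n).filter (fun m => Chi (n / m))).card : ℝ) := by
  have e1 : (((Cop n).filter (fun m => Chi (n / m))).card : ℝ) =
      ∑ m ∈ Cop n, (if Chi (n / m) then (1 : ℝ) else 0) := by
    rw [Finset.card_filter]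
    push_cast
    rfl
  have e2 : ((Cop n).card : ℝ) = ∑ m ∈ Cop n, (1 : ℝ) := by simp
  rw [e1, e2, ← Finset.sum_add_distrib, ← Finset.sum_sub_distrib, ← Finset.sum_add_distrib]
  refine Finset.sum_congr rfl fun m hm => ?_
  rw [h (n / m) (pos_div hm)]
  push_cast
  ring

open Classical in
theorem sum_F (h : GCHI) (n : ℕ) :
    (F n : ℝ) = (∑ m ∈ Cop n, (g (n / m) : ℝ)) -
      (((Cop n).filter (fun m => Kap (n / m))).card : ℝ) := by
  have e1 : (((Cop n).filter (fun m => Kap (n / m))).card : ℝ) =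
      ∑ m ∈ Cop n, (if Kap (n / m) then (1 : ℝ) else 0) := by
    rw [Finset.card_filter]
    push_cast
    rfl
  rw [e1, ← Finset.sum_sub_distrib]
  unfold F
  rw [Nat.cast_sum]
  refine Finset.sum_congr rfl fun m hm => ?_
  have hg : 1 ≤ g (n / m) := by
    rw [h (n / m) (pos_div hm)]
    omega
  by_cases hk : Kap (n / m)
  · rw [if_pos hk, if_pos hk, Nat.cast_sub hg]
    push_cast
    rfl
  · rw [if_neg hk, if_neg hk]
    simp

theorem sum_F5 (n : ℕ) : (F5 n : ℝ) = ∑ m ∈ Cop n, (g (n / m) : ℝ) := by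
  unfold F5
  rw [Nat.cast_sum]

theorem trm_eq (x : ℕ × ℕ) : trm x = mm 2 4 2 3 x - mm 16 20 10 12 x := by
  unfold trm mm
  push_cast
  rfl

theorem lam5_eq : lam5 = 11 / 18 + (∑' x, mm 2 4 2 3 x) / 3 := by
  unfold lam5 mm
  push_cast
  rfl

theorem lam_eq (h1 : Summable (mm 2 4 2 3)) (h2 : Summable (mm 16 20 10 12)) :
    lam = 11 / 18 + ((∑' x, mm 2 4 2 3 x) - ∑' x, mm 16 20 10 12 x) / 3 := by
  unfold lam
  rw [← h1.tsum_sub h2]
  have : (fun x => trm x) = fun x => mm 2 4 2 3 x - mm 16 20 10 12 x := funext trm_eq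
  rw [show (∑' x : ℕ × ℕ, trm x) = ∑' x, (mm 2 4 2 3 x - mm 16 20 10 12 x) from
    congrArg tsum this]

theorem gASM (hC : CNT) (hL : LGS) (hD : DBL) (hG : GCHI) : ASM := by
  classical
  obtain ⟨s1, C5, h5⟩ := hD 2 4 2 3 par1
  obtain ⟨s2, C6, h6⟩ := hD 16 20 10 12 par2
  obtain ⟨C3, h3⟩ := hL 3 (by norm_num)
  obtain ⟨C4, h4⟩ := hL 4 (by norm_num)
  have hlog : ∀ n : ℕ, 1 ≤ n → (0 : ℝ) ≤ Real.log n := fun n hn =>
    Real.log_nonneg (by exact_mod_cast hn)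
  -- the bound for the sum of g
  have main : ∀ n : ℕ, 1 ≤ n →
      |(∑ m ∈ Cop n, (g (n / m) : ℝ)) - (11 / 18 + (∑' x, mm 2 4 2 3 x) / 3) * n| ≤
        (C3 + C4 + 1 + C5) * (1 + Real.log n) := by
    intro n hn
    have a3 := h3 n hn
    have a4 := h4 n hn
    have a5 := h5 n hn
    have a1 := hC n 1 le_rfl
    rw [Nat.div_one] at a1
    have hl := hlog n hn
    have e5 : ((Cop n).filter (fun m => (∃ j : ℕ, 2 * 4 ^ j ≤ n / m ∧ n / m < 4 * 4 ^ j) ∧
      (∃ b : ℕ, 2 * 3 ^ b ≤ n / m ∧ n / m < 3 * 3 ^ b))).card =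
        ((Cop n).filter (fun m => Chi (n / m))).card := by
      apply congrArg
      apply Finset.filter_congr
      intro m _
      exact Iff.rfl
    rw [e5] at a5
    rw [sum_g hG n]
    rw [abs_le] at a1 a3 a4 a5 ⊢
    push_cast at a1 a3 a4 a5 ⊢
    obtain ⟨b1, c1⟩ := a1
    obtain ⟨b3, c3⟩ := a3
    obtain ⟨b4, c4⟩ := a4
    obtain ⟨b5, c5⟩ := a5
    constructor
    · nlinarith [b1, c1, b3, c3, b4, c4, b5, c5, hl]
    · nlinarith [b1, c1, b3, c3, b4, c4, b5, c5, hl]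
  refine ⟨⟨C3 + C4 + 1 + C5 + C6, fun n hn => ?_⟩, ⟨C3 + C4 + 1 + C5, fun n hn => ?_⟩⟩
  · have a := main n hn
    have a6 := h6 n hn
    have e6 : ((Cop n).filter (fun m => (∃ j : ℕ, 16 * 4 ^ j ≤ n / m ∧ n / m < 20 * 4 ^ j) ∧
      (∃ b : ℕ, 10 * 3 ^ b ≤ n / m ∧ n / m < 12 * 3 ^ b))).card =
        ((Cop n).filter (fun m => Kap (n / m))).card := by
      apply congrArg
      apply Finset.filter_congr
      intro m _
      exact Iff.rfl
    rw [e6] at a6
    rw [sum_F hG n, lam_eq s1 s2]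
    rw [abs_le] at a a6 ⊢
    obtain ⟨b1, c1⟩ := a
    obtain ⟨b6, c6⟩ := a6
    constructor
    · linarith
    · linarith
  · rw [sum_F5, lam5_eq]
    exact main n hn

end Pool.Agent.Helper16.VF
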