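import Pool.Agent.Helper96.VF.Goals

/-!
# Project VF: packet C3N (`C3N` from `CRD`, `TYC`, `R5`, `C3`; `C5N` from `CRD`, `TYC`, `R5`, `R7`, `C5`)
-/

set_option autoImplicit false

namespace Pool.Agent.Helper16.VF

open Pool.Agent.Helper96.VF

theorem rg_of_co {n m p q : ℕ} (h : Co n m p q) : Rg n p q := by
  obtain ⟨_, _, h1, h2, h3, h4⟩ := h
  exact ⟨h1, h2, h3, h4⟩

theorem tc_true {n m p q : ℕ} (h2 : TYC) (hm : 0 < m) (hc : Co n m p q) (h5 : 5 ∣ m) :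
    (Ty n m ↔ TC True n p q) := by
  have h := (h2 n m p q hm hc).1
  rw [eq_true h5] at h
  exact h

theorem gC3N (h : CRD) (h2 : TYC) (h3 : R5) (h4 : C3) : C3N := by
  intro n m hm h5 hn hne
  obtain ⟨m₀, rfl⟩ := h5
  have hm0 : 0 < m₀ := by omega
  have hd : 5 * m₀ / 5 = m₀ := by omega
  rw [hd] at hne
  obtain ⟨p₁, q₁, c₁⟩ := h n m₀ hm0 (by omega)
  obtain ⟨p, q, c⟩ := h n (5 * m₀) hm (by omega)
  obtain ⟨p₂, q₂, c₂⟩ := h n (5 * (5 * m₀)) (by omega) hn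
  have t₁ := (h2 n m₀ p₁ q₁ hm0 c₁).1
  have t := tc_true h2 hm c (Dvd.intro _ rfl)
  have t₂ := tc_true h2 (by omega) c₂ (Dvd.intro _ rfl)
  rw [t₁, t] at hne
  rw [t₂, t]
  exact h4 (5 ∣ m₀) n p₁ q₁ p q p₂ q₂ (rg_of_co c₁) (rg_of_co c) (rg_of_co c₂)
    (h3 n m₀ p₁ q₁ p q hm0 c₁ c) (h3 n (5 * m₀) p q p₂ q₂ hm c c₂) hne

theorem gC5N (h : CRD) (h2 : TYC) (h3 : R5) (h3' : R7) (h4 : C5) : C5N := by
  intro n m hm h35 hn hne hne'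
  obtain ⟨m₀, hm0'⟩ := h35
  have e1 : m = 7 * (5 * m₀) := by omega
  subst e1
  have hm0 : 0 < m₀ := by omega
  have hd : 7 * (5 * m₀) / 35 = m₀ := by omega
  have hd' : 7 * (5 * m₀) / 7 = 5 * m₀ := by omega
  rw [hd, hd'] at hne
  rw [hd'] at hne'
  obtain ⟨p₃, q₃, c₃⟩ := h n m₀ hm0 (by omega)
  obtain ⟨p₇, q₇, c₇⟩ := h n (5 * m₀) (by omega) (by omega)
  obtain ⟨p, q, c⟩ := h n (7 * (5 * m₀)) hm (by omega)
  obtain ⟨p₂, q₂, c₂⟩ := h n (5 * (7 * (5 * m₀))) (by omega) hn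
  have t₃ := (h2 n m₀ p₃ q₃ hm0 c₃).1
  have t₇ := tc_true h2 (by omega) c₇ (Dvd.intro _ rfl)
  have t := tc_true h2 hm c (by omega)
  have t₂ := tc_true h2 (by omega) c₂ (Dvd.intro _ rfl)
  rw [t₃, t₇] at hne
  rw [t₇, t] at hne'
  rw [t₂, t]
  exact h4 (5 ∣ m₀) n p₃ q₃ p₇ q₇ p q p₂ q₂ (rg_of_co c₃) (rg_of_co c₇) (rg_of_co c) (rg_of_co c₂)
    (h3 n m₀ p₃ q₃ p₇ q₇ hm0 c₃ c₇) (h3' n (5 * m₀) p₇ q₇ p q (by omega) c₇ c)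
    (h3 n (7 * (5 * m₀)) p q p₂ q₂ hm c c₂) hne hne'

end Pool.Agent.Helper16.VF
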