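import Pool.Agent.Helper27.VF.Goals

/-! # Project VF: packet ORB (orbits of the minimal cuts) -/

set_option autoImplicit false

namespace Pool.Agent.Helper16.VF

open Pool.Agent.Helper27.VF

universe u

theorem lw_tr {A W : Type u} [Group A] [MulAction A W] (a : A) {c d : Set W × Set W}
    (h : Lw c d) : Lw (tr a c) (tr a d) :=
  ⟨fun _ hx => h.1 hx, fun _ hx => h.2 hx⟩

/-- **ORB.** -/
theorem orb (hOra : OraStmt.{u}) : OrbStmt.{u} := by
  intro A W _ _ G G₀ w p hS k hk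
  have hBB : ∀ g ∈ BB A G p k, ∀ h : A, ∀ c ∈ SS A G p k,
      (Inn p (h * g) c.1 ↔ Inn p h c.1) := fun g hg => hg
  have hB1 : ∀ g ∈ BB A G p k, ∀ c ∈ SS A G p k, (Inn p g c.1 ↔ Inn p (1 : A) c.1) := by
    intro g hg c hc
    have h1 := hBB g hg 1 c hc
    rwa [one_mul] at h1
  refine ⟨?_, ?_, ?_, ?_⟩
  · intro g hg d hd
    exact (hB1 g hg d hd.1).2 hd.2.1
  · intro g hg
    have hg' : ∃ h : A, ∃ c ∈ SS A G p k, ¬ (Inn p (h * g) c.1 ↔ Inn p h c.1) := by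
      by_contra hcon
      exact hg fun h c hc => Classical.byContradiction fun h2 => hcon ⟨h, c, hc, h2⟩
    obtain ⟨h, c, hc, hne⟩ := hg'
    have e1 : Inn p (1 : A) (tr h⁻¹ c).1 ↔ Inn p h c.1 := by
      rw [inn_tr_fst, inv_inv, mul_one]
    have e2 : Inn p g (tr h⁻¹ c).1 ↔ Inn p (h * g) c.1 := by
      rw [inn_tr_fst, inv_inv]
    have hc' : tr h⁻¹ c ∈ SS A G p k := SS.tr hS hc h⁻¹
    rcases Classical.em (Inn p (1 : A) (tr h⁻¹ c).1) with h3 | h3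
    · have h4 : ¬ Inn p g (tr h⁻¹ c).1 := fun h4 =>
        hne ⟨fun _ => e1.1 h3, fun _ => e2.1 h4⟩
      have h5 : Inn p g (tr h⁻¹ c).2 := (inn_snd hS hc'.1).2 h4
      obtain ⟨d, hd, hl⟩ := (hOra A W G G₀ w p hS k hk).1 _ hc' h3
      exact ⟨d, hd, inn_mono hl.2 h5⟩
    · have h4 : Inn p g (tr h⁻¹ c).1 := by
        by_contra h4
        exact hne ⟨fun h5 => absurd (e2.2 h5) h4, fun h5 => absurd (e1.2 h5) h3⟩
      have h5 : Inn p (1 : A) (tr h⁻¹ c).2 := (inn_snd hS hc'.1).2 h3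
      obtain ⟨d, hd, hl⟩ := (hOra A W G G₀ w p hS k hk).1 _ (SS.swap hc') h5
      exact ⟨d, hd, inn_mono hl.2 h4⟩
  · rintro ⟨c, hc⟩ htop
    obtain ⟨hcut, _, a, b, h1, h2⟩ := id hc
    have h3 : a⁻¹ * b ∈ BB A G p k := by rw [htop]; exact Subgroup.mem_top _
    have h4 := hBB _ h3 a c hc
    rw [mul_inv_cancel_left] at h4
    exact (inn_snd hS hcut).1 h2 (h4.2 h1)
  · intro g hg d hd
    refine ⟨SS.tr hS hd.1 g, ?_, ?_⟩
    · rw [inn_tr_fst, mul_one]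
      exact (hB1 _ (inv_mem hg) d hd.1).2 hd.2.1
    · intro c hc h1 hl
      have h2 : Inn p (1 : A) (tr g⁻¹ c).1 := by
        rw [inn_tr_fst, inv_inv, mul_one]
        exact (hB1 g hg c hc).2 h1
      have h3 : Lw (tr g⁻¹ c) d := by
        have h4 := lw_tr g⁻¹ hl
        rwa [tr_tr, inv_mul_cancel, tr_one] at h4
      have h5 := hd.2.2 _ (SS.tr hS hc g⁻¹) h2 h3
      rw [← h5, tr_tr, mul_inv_cancel, tr_one]

end Pool.Agent.Helper16.VF
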